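import Mathlib
import Pool.Agent.X158.EquiShape

set_option autoImplicit false

namespace Pool.Agent.Results.MP_ec4324_co.NoSet

open Finset Pool.Agent.X158.EquiShape

/-- `S ⊆ 𝔽_p²` is equidistributed in the direction `v`: all lines parallel to `v` (the cosets
`a + v`) contain the same number of points of `S`. -/
def EquiIn (p : ℕ) (S : Finset (ZMod p × ZMod p)) (v : Submodule (ZMod p) (ZMod p × ZMod p)) :
    Prop :=
  ∃ c : ℕ, ∀ a : ZMod p × ZMod p, {q : ZMod p × ZMod p | q ∈ S ∧ q - a ∈ v}.ncard = c

/-- The number of directions (one-dimensional subspaces of `𝔽_p²`) in which `S` is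
equidistributed. -/
noncomputable def numEqui (p : ℕ) (S : Finset (ZMod p × ZMod p)) : ℕ :=
  {v : Submodule (ZMod p) (ZMod p × ZMod p) |
    Module.finrank (ZMod p) v = 1 ∧ EquiIn p S v}.ncard

abbrev V := F × F

/-- direction vectors -/
def vec : Option F → V
  | none => (0, 1)
  | some m => (1, m)

/-- functional vanishing on the direction -/
def fn (o : Option F) (q : V) : F := (vec o).1 * q.2 - (vec o).2 * q.1

lemma fn_add (o : Option F) (q r : V) : fn o (q + r) = fn o q + fn o r := by
  simp only [fn, Prod.fst_add, Prod.snd_add]; ring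

lemma fn_sub (o : Option F) (q r : V) : fn o (q - r) = fn o q - fn o r := by
  simp only [fn, Prod.fst_sub, Prod.snd_sub]; ring

lemma fn_smul (o : Option F) (c : F) (q : V) : fn o (c • q) = c * fn o q := by
  simp only [fn, Prod.smul_fst, Prod.smul_snd, smul_eq_mul]; ring

/-- the linear functional -/
def lin (o : Option F) : V →ₗ[F] F where
  toFun := fn o
  map_add' := fn_add o
  map_smul' := fn_smul o

/-- direction -/
def dir (o : Option F) : Submodule F V := LinearMap.ker (lin o)

lemma mem_dir (o : Option F) (q : V) : q ∈ dir o ↔ fn o q = 0 := by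
  simp [dir, lin]

lemma fn_vec_self (o : Option F) : fn o (vec o) = 0 := by
  simp only [fn]; ring

lemma fn_vec_ne {o o' : Option F} (h : o ≠ o') : fn o (vec o') ≠ 0 := by
  cases o with
  | none =>
    cases o' with
    | none => exact absurd rfl h
    | some m => simp [fn, vec]
  | some m =>
    cases o' with
    | none => simp [fn, vec]
    | some m' =>
      simp only [fn, vec, one_mul, mul_one]
      intro h'
      apply h
      rw [sub_eq_zero.1 h']

lemma one_dir (w : V) (hw : w ≠ 0) :
    (univ.filter (fun o : Option F => fn o w = 0)).card = 1 := by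
  rw [Finset.card_eq_one]
  by_cases h1 : w.1 = 0
  · have h2 : w.2 ≠ 0 := fun h2 => hw (Prod.ext h1 h2)
    refine ⟨none, ?_⟩
    ext o
    simp only [Finset.mem_filter, Finset.mem_univ, true_and, Finset.mem_singleton]
    cases o with
    | none => simp [fn, vec, h1]
    | some m => simp [fn, vec, h1, h2]
  · refine ⟨some (w.2 / w.1), ?_⟩
    ext o
    simp only [Finset.mem_filter, Finset.mem_univ, true_and, Finset.mem_singleton]
    cases o with
    | none => simp [fn, vec, h1]
    | some m =>
      simp only [fn, vec, one_mul, Option.some.injEq]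
      rw [eq_div_iff h1, sub_eq_zero]
      exact eq_comm

/-- number of points of `S` on a line -/
def n (S : Finset V) (o : Option F) (t : F) : ℕ := (S.filter (fun q => fn o q = t)).card

lemma sum_n (S : Finset V) (o : Option F) : ∑ t, n S o t = S.card :=
  (Finset.card_eq_sum_card_fiberwise (f := fn o) (t := univ) (fun _ _ => by simp)).symm

lemma pointwise (S : Finset V) (P : V) :
    ∑ o : Option F, n S o (fn o P) = S.card + 41 * (if P ∈ S then 1 else 0) := by
  have h1 : ∑ o : Option F, n S o (fn o P) =
      ∑ q ∈ S, (univ.filter (fun o : Option F => fn o q = fn o P)).card := by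
    simp only [n, Finset.card_filter]
    exact Finset.sum_comm
  have h2 : ∀ q ∈ S, (univ.filter (fun o : Option F => fn o q = fn o P)).card =
      1 + 41 * (if q = P then 1 else 0) := by
    intro q _
    by_cases hq : q = P
    · subst hq
      have h42 : Fintype.card (Option F) = 42 := by rw [Fintype.card_option, ZMod.card]
      have e : (univ.filter (fun o : Option F => fn o q = fn o q)) = univ :=
        Finset.filter_true_of_mem (fun _ _ => rfl)
      rw [e, Finset.card_univ, h42, if_pos rfl]
    · rw [if_neg hq, mul_zero, add_zero, ← one_dir (q - P) (sub_ne_zero.2 hq)]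
      refine congrArg Finset.card (Finset.filter_congr (fun o _ => ?_))
      rw [fn_sub, sub_eq_zero]
  rw [h1, Finset.sum_congr rfl h2, Finset.sum_add_distrib, ← Finset.mul_sum]
  simp

lemma second (S : Finset V) : ∑ o : Option F, ∑ t, (n S o t) ^ 2 = S.card * (S.card + 41) := by
  have h1 : ∀ o : Option F, ∑ t, (n S o t) ^ 2 = ∑ q ∈ S, n S o (fn o q) := by
    intro o
    rw [← Finset.sum_fiberwise S (fn o) (fun q => n S o (fn o q))]
    apply Finset.sum_congr rfl
    intro t _
    rw [Finset.sum_congr rfl (g := fun _ => n S o t)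
      (fun q hq => by rw [(Finset.mem_filter.1 hq).2]), Finset.sum_const, sq]
    rfl
  simp only [h1]
  rw [Finset.sum_comm]
  rw [Finset.sum_congr rfl (g := fun _ => S.card + 41) (fun q hq => by
    rw [pointwise S q, if_pos hq, mul_one]), Finset.sum_const, smul_eq_mul]

lemma n_le (S : Finset V) (o : Option F) (t : F) : n S o t ≤ 41 := by
  have h41 : (univ : Finset F).card = 41 := by rw [Finset.card_univ, ZMod.card]
  rw [← h41]
  unfold n
  cases o with
  | none =>
    apply Finset.card_le_card_of_injOn (fun q => q.2) (fun _ _ => by simp)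
    intro q hq r hr h
    have hq' := (Finset.mem_filter.1 (Finset.mem_coe.1 hq)).2
    have hr' := (Finset.mem_filter.1 (Finset.mem_coe.1 hr)).2
    simp only [fn, vec, zero_mul, one_mul, zero_sub] at hq' hr'
    exact Prod.ext (by rw [← neg_inj, hq', hr']) h
  | some m =>
    apply Finset.card_le_card_of_injOn (fun q => q.1) (fun _ _ => by simp)
    intro q hq r hr h
    have hq' := (Finset.mem_filter.1 (Finset.mem_coe.1 hq)).2
    have hr' := (Finset.mem_filter.1 (Finset.mem_coe.1 hr)).2
    simp only [fn, vec, one_mul] at hq' hr'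
    simp only at h
    refine Prod.ext h ?_
    rw [h] at hq'
    linear_combination hq' - hr'

/-- third differences from four ridge functions with constant sum -/
lemma third (f1 f2 f3 f4 : V → F) (K : F) (h : ∀ P, f1 P + (f2 P + (f3 P + f4 P)) = K)
    (a b c : V) (h2 : ∀ P, f2 (P + a) = f2 P) (h3 : ∀ P, f3 (P + b) = f3 P)
    (h4 : ∀ P, f4 (P + c) = f4 P) (P : V) :
    f1 P - f1 (P + a) - f1 (P + b) - f1 (P + c) + f1 (P + a + b) + f1 (P + a + c)
      + f1 (P + b + c) - f1 (P + a + b + c) = 0 := by
  have e2 := h2 P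
  have e2b : f2 (P + a + b) = f2 (P + b) := by
    rw [add_right_comm]; exact h2 _
  have e2c : f2 (P + a + c) = f2 (P + c) := by
    rw [add_right_comm]; exact h2 _
  have e2bc : f2 (P + a + b + c) = f2 (P + b + c) := by
    rw [show P + a + b + c = (P + b + c) + a by abel]; exact h2 _
  have e3 := h3 P
  have e3a := h3 (P + a)
  have e3c : f3 (P + b + c) = f3 (P + c) := by
    rw [add_right_comm]; exact h3 _
  have e3ac : f3 (P + a + b + c) = f3 (P + a + c) := by
    rw [show P + a + b + c = (P + a + c) + b by abel]; exact h3 _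
  have e4 := h4 P
  have e4a := h4 (P + a)
  have e4b := h4 (P + b)
  have e4ab := h4 (P + a + b)
  have k0 := h P
  have ka := h (P + a)
  have kb := h (P + b)
  have kc := h (P + c)
  have kab := h (P + a + b)
  have kac := h (P + a + c)
  have kbc := h (P + b + c)
  have kabc := h (P + a + b + c)
  linear_combination k0 - ka - kb - kc + kab + kac + kbc - kabc + e2 - e2b - e2c + e2bc
    + e3 - e3a - e3c + e3ac + e4 - e4a - e4b + e4ab

lemma fn_surj (o : Option F) (t : F) : ∃ a : V, fn o a = t := by
  cases o with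
  | none => exact ⟨(-t, 0), by simp [fn, vec]⟩
  | some m => exact ⟨(0, t), by simp [fn, vec]⟩

lemma equi_iff (S : Finset V) (o : Option F) :
    EquiIn 41 S (dir o) ↔ ∃ c, ∀ t, n S o t = c := by
  have key : ∀ a : V, {q : V | q ∈ S ∧ q - a ∈ dir o}.ncard = n S o (fn o a) := by
    intro a
    have : {q : V | q ∈ S ∧ q - a ∈ dir o} = ((S.filter (fun q => fn o q = fn o a) : Finset V) : Set V) := by
      ext q
      simp only [Set.mem_ofPred_eq, mem_dir, fn_sub, sub_eq_zero, Finset.coe_filter]
    rw [this, Set.ncard_coe_finset]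
    rfl
  constructor
  · rintro ⟨c, hc⟩
    refine ⟨c, fun t => ?_⟩
    obtain ⟨a, rfl⟩ := fn_surj o t
    rw [← key a]
    exact hc a
  · rintro ⟨c, hc⟩
    exact ⟨c, fun a => by rw [← hc (fn o a)]; exact key a⟩

lemma dir_inj : Function.Injective dir := by
  intro o o' h
  by_contra hne
  have h1 : vec o' ∈ dir o := by rw [h, mem_dir]; exact fn_vec_self o'
  rw [mem_dir] at h1
  exact fn_vec_ne hne h1

lemma vec_ne (o : Option F) : vec o ≠ 0 := by
  cases o with
  | none => simp [vec]
  | some m => simp [vec]

lemma dir_eq_span (o : Option F) (w : V) (hw : w ≠ 0) (h : fn o w = 0) :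
    dir o = Submodule.span F {w} := by
  ext q
  rw [mem_dir, Submodule.mem_span_singleton]
  constructor
  · intro hq
    cases o with
    | none =>
      simp only [fn, vec, zero_mul, one_mul, zero_sub, neg_eq_zero] at h hq
      have hw2 : w.2 ≠ 0 := fun h2 => hw (Prod.ext h h2)
      refine ⟨q.2 / w.2, Prod.ext ?_ ?_⟩
      · simp [h, hq]
      · simp [hw2]
    | some m =>
      simp only [fn, vec, one_mul] at h hq
      have hw1 : w.1 ≠ 0 := by
        intro h1
        rw [h1, mul_zero, sub_zero] at h
        exact hw (Prod.ext h1 h)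
      refine ⟨q.1 / w.1, Prod.ext ?_ ?_⟩
      · simp [hw1]
      · simp only [Prod.smul_snd, smul_eq_mul]
        have e1 : w.2 = m * w.1 := sub_eq_zero.1 h
        have e2 : q.2 = m * q.1 := sub_eq_zero.1 hq
        rw [e1, e2]; field_simp
  · rintro ⟨c, rfl⟩
    rw [fn_smul, h, mul_zero]

lemma dirs (v : Submodule F V) : Module.finrank F v = 1 ↔ v ∈ Set.range dir := by
  constructor
  · intro h
    obtain ⟨w, hw, hspan⟩ := finrank_eq_one_iff'.1 h
    have hw0 : (w : V) ≠ 0 := fun h0 => hw (Subtype.ext h0)
    obtain ⟨o, ho⟩ := Finset.card_eq_one.1 (one_dir (w : V) hw0)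
    have ho' : fn o (w : V) = 0 := by
      have : o ∈ univ.filter (fun o : Option F => fn o (w : V) = 0) := by rw [ho]; simp
      exact (Finset.mem_filter.1 this).2
    refine ⟨o, ?_⟩
    rw [dir_eq_span o w hw0 ho']
    ext q
    rw [Submodule.mem_span_singleton]
    constructor
    · rintro ⟨c, rfl⟩
      exact v.smul_mem c w.2
    · intro hq
      obtain ⟨c, hc⟩ := hspan ⟨q, hq⟩
      exact ⟨c, congrArg Subtype.val hc⟩
  · rintro ⟨o, rfl⟩
    rw [dir_eq_span o (vec o) (vec_ne o) (fn_vec_self o)]
    exact finrank_span_singleton (vec_ne o)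

open Classical in
lemma numEqui_eq (S : Finset V) :
    numEqui 41 S = (univ.filter (fun o : Option F => ∃ c, ∀ t, n S o t = c)).card := by
  have : {v : Submodule F V | Module.finrank F v = 1 ∧ EquiIn 41 S v} =
      dir '' ((univ.filter (fun o : Option F => ∃ c, ∀ t, n S o t = c) : Finset (Option F)) :
        Set (Option F)) := by
    ext v
    simp only [Set.mem_ofPred_eq, Set.mem_image, Finset.coe_filter, Finset.mem_univ, true_and]
    constructor
    · rintro ⟨h1, h2⟩
      obtain ⟨o, rfl⟩ := (dirs v).1 h1
      exact ⟨o, (equi_iff S o).1 h2, rfl⟩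
    · rintro ⟨o, ho, rfl⟩
      exact ⟨(dirs _).2 ⟨o, rfl⟩, (equi_iff S o).2 ho⟩
  unfold numEqui
  rw [this, Set.ncard_image_of_injective _ dir_inj, Set.ncard_coe_finset]

open Classical in
lemma main (S : Finset V)
    (hcard : (univ.filter (fun o : Option F => ∃ c, ∀ t, n S o t = c)).card = 38) : False := by
  set E := univ.filter (fun o : Option F => ∃ c, ∀ t, n S o t = c) with hE
  set B := univ.filter (fun o : Option F => ¬ ∃ c, ∀ t, n S o t = c) with hB
  have hBcard : B.card = 4 := by
    have h42 : (univ : Finset (Option F)).card = 42 := by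
      rw [Finset.card_univ, Fintype.card_option, ZMod.card]
    have h1 := Finset.card_filter_add_card_filter_not (s := (univ : Finset (Option F)))
      (fun o : Option F => ∃ c, ∀ t, n S o t = c)
    have h2 : E.card + B.card = 42 := by
      rw [← h42, ← h1]
    omega
  -- the common value k
  have h0 : ∃ o, o ∈ E := Finset.card_pos.1 (by rw [hcard]; norm_num)
  obtain ⟨o0, ho0⟩ := h0
  obtain ⟨k, hk⟩ := (Finset.mem_filter.1 ho0).2
  have hS : S.card = 41 * k := by
    rw [← sum_n S o0, Finset.sum_congr rfl (fun t _ => hk t), Finset.sum_const, Finset.card_univ,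
      ZMod.card, smul_eq_mul]
  have hEk : ∀ o ∈ E, ∀ t, n S o t = k := by
    intro o ho t
    obtain ⟨c, hc⟩ := (Finset.mem_filter.1 ho).2
    have h1 : S.card = 41 * c := by
      rw [← sum_n S o, Finset.sum_congr rfl (fun t _ => hc t), Finset.sum_const, Finset.card_univ,
        ZMod.card, smul_eq_mul]
    rw [hc t]
    omega
  have hsplit : ∀ f : Option F → ℕ, ∑ o, f o = ∑ o ∈ E, f o + ∑ o ∈ B, f o := by
    intro f
    exact (Finset.sum_filter_add_sum_filter_not univ (fun o : Option F => ∃ c, ∀ t, n S o t = c) f).symm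
  -- pointwise identity on B
  have hBpt : ∀ P : V, ∑ o ∈ B, (n S o (fn o P) : F) = -(38 * k : F) := by
    intro P
    have h1 := pointwise S P
    rw [hsplit, Finset.sum_congr rfl (fun o ho => hEk o ho (fn o P)), Finset.sum_const, hcard,
      smul_eq_mul, hS] at h1
    have h2 := congrArg (Nat.cast : ℕ → F) h1
    push_cast at h2
    have h41 : (41 : F) = 0 := by decide
    rw [h41] at h2
    linear_combination h2
  -- second moment on B
  have hB2 : ∑ o ∈ B, ∑ t, (n S o t) ^ 2 = 123 * k ^ 2 + 1681 * k := by
    have h1 := second S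
    rw [hsplit, hS] at h1
    have h2 : ∑ o ∈ E, ∑ t, (n S o t) ^ 2 = 38 * (41 * k ^ 2) := by
      rw [Finset.sum_congr rfl (g := fun _ => 41 * k ^ 2) (fun o ho => by
        rw [Finset.sum_congr rfl (g := fun _ => k ^ 2) (fun t _ => by rw [hEk o ho t]),
          Finset.sum_const, Finset.card_univ, ZMod.card, smul_eq_mul]), Finset.sum_const, hcard,
        smul_eq_mul]
    rw [h2] at h1
    have h3 : 41 * k * (41 * k + 41) = 1681 * k ^ 2 + 1681 * k := by ring
    rw [h3] at h1
    omega
  -- each special direction has a large second moment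
  have hlow : ∀ o ∈ B, 1681 * k + 123 * k ^ 2 < 4 * ∑ t, (n S o t) ^ 2 := by
    intro i hi
    have hs : ∑ t, n S i t = 41 * k := by rw [sum_n, hS]
    have hne : ∃ t t', n S i t ≠ n S i t' := by
      by_contra hcon
      push Not at hcon
      exact (Finset.mem_filter.1 hi).2 ⟨n S i 0, fun t => hcon t 0⟩
    refine shape (n S i) k (n_le S i) ?_ hs hne
    have h3 : (B.erase i).card = 3 := by rw [Finset.card_erase_of_mem hi, hBcard]
    obtain ⟨x, y, z, hxy, hxz, hyz, hxyz⟩ := Finset.card_eq_three.1 h3
    have hx : x ≠ i := Finset.ne_of_mem_erase (s := B) (by rw [hxyz]; simp)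
    have hy : y ≠ i := Finset.ne_of_mem_erase (s := B) (by rw [hxyz]; simp)
    have hz : z ≠ i := Finset.ne_of_mem_erase (s := B) (by rw [hxyz]; simp)
    have hsum : ∀ P : V, (n S i (fn i P) : F) + ((n S x (fn x P) : F) + ((n S y (fn y P) : F) +
        (n S z (fn z P) : F))) = -(38 * k : F) := by
      intro P
      rw [← hBpt P, ← Finset.add_sum_erase B _ hi, hxyz, Finset.sum_insert (by simp [hxy, hxz]),
        Finset.sum_insert (by simp [hyz]), Finset.sum_singleton]
    -- the three shift vectors
    let sh : Option F → V := fun j => (fn i (vec j))⁻¹ • vec j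
    have sh_i : ∀ j, j ≠ i → fn i (sh j) = 1 := by
      intro j hj
      simp only [sh]
      rw [fn_smul]
      exact inv_mul_cancel₀ (fn_vec_ne hj.symm)
    have sh_j : ∀ j, fn j (sh j) = 0 := by
      intro j
      simp only [sh]
      rw [fn_smul, fn_vec_self, mul_zero]
    intro t
    obtain ⟨P, hP⟩ := fn_surj i t
    have h := third (fun P => (n S i (fn i P) : F)) (fun P => (n S x (fn x P) : F))
      (fun P => (n S y (fn y P) : F)) (fun P => (n S z (fn z P) : F)) (-(38 * k : F)) hsum
      (sh x) (sh y) (sh z)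
      (fun P => by simp only [fn_add, sh_j, add_zero])
      (fun P => by simp only [fn_add, sh_j, add_zero])
      (fun P => by simp only [fn_add, sh_j, add_zero]) P
    simp only [fn_add, sh_i x hx, sh_i y hy, sh_i z hz, hP] at h
    have e2 : t + 1 + 1 = t + 2 := by ring
    have e3 : t + 2 + 1 = t + 3 := by ring
    rw [e2, e3] at h
    linear_combination h
  have hfin : ∑ o ∈ B, (1681 * k + 123 * k ^ 2) < ∑ o ∈ B, 4 * ∑ t, (n S o t) ^ 2 := by
    apply Finset.sum_lt_sum_of_nonempty (Finset.card_pos.1 (by rw [hBcard]; norm_num))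
    exact hlow
  rw [Finset.sum_const, hBcard, ← Finset.mul_sum, hB2, smul_eq_mul] at hfin
  omega

/-- For the prime `p = 41` and `d = 38 ≤ p - 2` there is no set in `𝔽_p²` that is equidistributed
in exactly `d` directions. -/
theorem result : Nat.Prime 41 ∧ 38 ≤ 41 - 2 ∧
    ∀ S : Finset (ZMod 41 × ZMod 41), numEqui 41 S ≠ 38 := by
  refine ⟨by norm_num, by norm_num, fun S h => ?_⟩
  exact main S (by rw [← numEqui_eq]; exact h)

end Pool.Agent.Results.MP_ec4324_co.NoSet
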